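import Pool.Agent.COSB.StmtsB

/-!
# Squad COSB (MP_0fc649_lc), row HPS: the parity set of `memW`
-/

set_option autoImplicit false

namespace Pool.Agent.COSB.H45

open Turing Computability Pool.Agent.UT.Num Pool.Agent.H2XG Pool.Agent.PAR Pool.Agent.COS

section mono

variable {F : Type} [Field F]

theorem mon_mul {n : ℕ} {M M' : Matrix (Fin n) (Fin n) F} (h : IsMon M) (h' : IsMon M') :
    IsMon (M * M') := by
  obtain ⟨π, ζ, h⟩ := h
  obtain ⟨π', ζ', h'⟩ := h'
  refine ⟨π * π', fun j => ζ (π' j) * ζ' j, fun i j => ?_⟩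
  rw [Matrix.mul_apply, Finset.sum_eq_single (π' j)]
  · rw [h, h', if_pos rfl]
    by_cases hi : i = π (π' j)
    · rw [if_pos hi, if_pos (by rw [Equiv.Perm.mul_apply]; exact hi), Units.val_mul]
    · rw [if_neg hi, if_neg (by rw [Equiv.Perm.mul_apply]; exact hi), zero_mul]
  · intro l _ hl
    rw [h' l j, if_neg hl, mul_zero]
  · intro h0
    exact absurd (Finset.mem_univ _) h0

/-- the left inverse of a monomial matrix -/
theorem mon_inv {n : ℕ} {M : Matrix (Fin n) (Fin n) F} (h : IsMon M) :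
    ∃ N : Matrix (Fin n) (Fin n) F, N * M = 1 ∧ IsMon N := by
  obtain ⟨π, ζ, h⟩ := h
  refine ⟨Matrix.of fun i j => if j = π i then ((ζ i)⁻¹ : Fˣ) else 0, ?_, π⁻¹,
    fun j => (ζ (π⁻¹ j))⁻¹, ?_⟩
  · ext i l
    rw [Matrix.mul_apply, Finset.sum_eq_single (π i)]
    · rw [Matrix.of_apply, if_pos rfl, h]
      by_cases hi : i = l
      · subst hi
        rw [if_pos rfl, Matrix.one_apply_eq]
        exact Units.inv_mul _
      · rw [if_neg (fun e => hi (π.injective e)), mul_zero, Matrix.one_apply_ne hi]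
    · intro j _ hj
      rw [Matrix.of_apply, if_neg hj, zero_mul]
    · intro h0
      exact absurd (Finset.mem_univ _) h0
  · intro i j
    rw [Matrix.of_apply]
    by_cases hj : j = π i
    · have h1 : π⁻¹ j = i := by rw [hj]; exact π.symm_apply_apply i
      rw [if_pos hj, if_pos h1.symm]
      show _ = (((ζ (π⁻¹ j))⁻¹ : Fˣ) : F)
      rw [h1]
    · rw [if_neg hj, if_neg]
      intro e
      apply hj
      rw [e]
      exact (π.apply_symm_apply j).symm

theorem mon_inv' {n : ℕ} {M : Matrix.GeneralLinearGroup (Fin n) F} (h : IsMon M.1) :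
    IsMon (M⁻¹).1 := by
  obtain ⟨N, h1, h2⟩ := mon_inv h
  have h3 : (M⁻¹).1 = N := by
    calc (M⁻¹).1 = (N * M.1) * (M⁻¹).1 := by rw [h1, one_mul]
      _ = N * (M.1 * (M⁻¹).1) := by rw [mul_assoc]
      _ = N := by rw [Units.mul_inv, mul_one]
  rw [h3]
  exact h2

theorem mon_unit {n : ℕ} {M : Matrix (Fin n) (Fin n) F} (h : IsMon M) : M.det ≠ 0 := by
  obtain ⟨N, h1, -⟩ := mon_inv h
  intro h0
  have h2 := congrArg Matrix.det h1
  rw [Matrix.det_mul, h0, mul_zero, Matrix.det_one] at h2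
  exact zero_ne_one h2

/-- an element of `Z / p^k` which is not mapped to zero is a unit -/
theorem unit_of {p k : ℕ} (hp : p.Prime) (η : ZMod (p ^ k) →+* F) (r : ZMod (p ^ k))
    (h : η r ≠ 0) : IsUnit r := by
  have hne : NeZero (p ^ k) := ⟨pow_ne_zero _ hp.ne_zero⟩
  by_contra hu
  have h1 : ¬ r.val.Coprime (p ^ k) := by
    intro h2
    apply hu
    rw [← ZMod.natCast_zmod_val r]
    exact (ZMod.isUnit_iff_coprime _ _).2 h2
  have h2 : ¬ r.val.Coprime p := fun h3 => h1 (Nat.Coprime.pow_right k h3)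
  have h3 : p ∣ r.val := by
    by_contra h4
    exact h2 ((Nat.Prime.coprime_iff_not_dvd hp).2 h4).symm
  have h4 : r ^ k = 0 := by
    have h5 : ((r.val ^ k : ℕ) : ZMod (p ^ k)) = 0 :=
      (ZMod.natCast_eq_zero_iff _ _).2 (pow_dvd_pow_of_dvd h3 k)
    rw [Nat.cast_pow, ZMod.natCast_zmod_val] at h5
    exact h5
  apply h
  have h5 : η r ^ k = 0 := by rw [← map_pow, h4, map_zero]
  exact eq_zero_of_pow_eq_zero h5

end mono

theorem hps (hF : WdfStmt) (hP : WdpStmt) (hR : RhoStmt) (hL : LftStmt) : HpsStmt := by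
  intro F _ _ _ p k n hp hp2 hk η V x a a' hW
  obtain ⟨f1, f2, f3, f4, f5, f6, f7⟩ := hF F n
  obtain ⟨p1, p2, p3, p4⟩ := hP p k n hp hk
  obtain ⟨r1, r2, r3, r4⟩ := hR F n
  obtain ⟨W, hWd⟩ : ∃ W : Set (Gp p k n), W = {w : Gp p k n | V (x, encP p k n w.1) = true} :=
    ⟨_, rfl⟩
  rw [← hWd] at hW
  obtain ⟨φ, hφ⟩ : ∃ φ : Gp p k n →* Matrix.GeneralLinearGroup (Fin n) F,
      φ = Matrix.GeneralLinearGroup.map η := ⟨_, rfl⟩
  have φ1 : ∀ w : Gp p k n, (φ w).1 = w.1.map η := by
    intro w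
    rw [hφ]
    rfl
  obtain ⟨S, hS⟩ : ∃ S : Set (Matrix.GeneralLinearGroup (Fin n) F),
      S = {M | IsMon M.1 ∧ ∃ w ∈ W, M = a'⁻¹ * φ w * a} := ⟨_, rfl⟩
  have SM : ∀ M ∈ S, IsMon M.1 := by
    intro M hM
    rw [hS] at hM
    exact hM.1
  have SH : Heap S := by
    intro M1 h1 M2 h2 M3 h3
    rw [hS] at h1 h2 h3 ⊢
    obtain ⟨m1, w1, hw1, e1⟩ := h1
    obtain ⟨m2, w2, hw2, e2⟩ := h2
    obtain ⟨m3, w3, hw3, e3⟩ := h3
    refine ⟨?_, w1 * w2⁻¹ * w3, hW w1 hw1 w2 hw2 w3 hw3, ?_⟩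
    · have h4 : (M1 * M2⁻¹ * M3).1 = M1.1 * (M2⁻¹).1 * M3.1 := rfl
      rw [h4]
      exact mon_mul (mon_mul m1 (mon_inv' m2)) m3
    · rw [e1, e2, e3, map_mul, map_mul, map_inv]
      group
  -- words and pairs of matrices
  have key : ∀ (B : Gr (n * Fintype.card F)) (c : Word),
      (c.length = lenC F p k n ∧ memW F V p k n x (encF F a.1) (encF F a'.1) (enc B.1) c = true) ↔
        ∃ (M : Matrix (Fin n) (Fin n) F) (w : Matrix (Fin n) (Fin n) (ZMod (p ^ k))),
          c = encF F M ++ encP p k n w ∧ IsMon M ∧ B.1 = rho M ∧ V (x, encP p k n w) = true ∧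
            w.map η * a.1 = a'.1 * M := by
    intro B c
    constructor
    · rintro ⟨-, h⟩
      unfold memW at h
      simp only [Bool.and_eq_true] at h
      obtain ⟨⟨⟨⟨⟨h1, h2⟩, h3⟩, h4⟩, h5⟩, h6⟩ := h
      obtain ⟨M, hM⟩ := f2 _ h1
      obtain ⟨w, hw⟩ := p2 _ h4
      rw [← hM] at h2 h3 h6
      rw [← hw] at h5 h6
      refine ⟨M, w, ?_, (f6 M).1 h2, (f7 M B.1).1 h3, h5, ((p4 F η w).2 _ _ _).1 h6⟩
      rw [hM, hw, List.take_append_drop]
    · rintro ⟨M, w, rfl, h2, h3, h5, h6⟩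
      have l1 := (f1 M).1
      have l2 := (p1 w).1
      refine ⟨by rw [List.length_append, l1, l2]; rfl, ?_⟩
      unfold memW
      simp only [Bool.and_eq_true]
      rw [List.take_left' l1, List.drop_left' l1]
      exact ⟨⟨⟨⟨⟨(f1 M).2.1, (f6 M).2 h2⟩, (f7 M B.1).2 h3⟩, (p1 w).2⟩, h5⟩,
        ((p4 F η w).2 _ _ _).2 h6⟩
  -- the matrix over `Z / p^k` is invertible
  have inv : ∀ (M : Matrix (Fin n) (Fin n) F) (w : Matrix (Fin n) (Fin n) (ZMod (p ^ k))),
      IsMon M → w.map η * a.1 = a'.1 * M → ∃ w' : Gp p k n, w'.1 = w := by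
    intro M w hM he
    have h1 := congrArg Matrix.det he
    rw [Matrix.det_mul, Matrix.det_mul] at h1
    have h2 : a'.1.det * M.det ≠ 0 := by
      apply mul_ne_zero _ (mon_unit hM)
      intro h0
      have h3 := congrArg Matrix.det (Units.mul_inv a')
      rw [Matrix.det_mul, Matrix.det_one, h0, zero_mul] at h3
      exact zero_ne_one h3
    rw [← h1] at h2
    have h3 : (w.map η).det ≠ 0 := left_ne_zero_of_mul h2
    have h4 : (w.map η).det = η w.det := (RingHom.map_det η w).symm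
    rw [h4] at h3
    have h5 := unit_of hp η _ h3
    exact ⟨Matrix.GeneralLinearGroup.mk'' w h5, rfl⟩
  have claim : parSet (memW F V p k n x (encF F a.1) (encF F a'.1)) (n * Fintype.card F)
      (lenC F p k n) = {A : Gr (n * Fintype.card F) | ∃ M ∈ S, A.1 = rho M.1} := by
    ext B
    constructor
    · intro hB
      have h1 : Odd {c : Word | c.length = lenC F p k n ∧
        memW F V p k n x (encF F a.1) (encF F a'.1) (enc B.1) c = true}.ncard := hB
      have h2 : {c : Word | c.length = lenC F p k n ∧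
        memW F V p k n x (encF F a.1) (encF F a'.1) (enc B.1) c = true}.Nonempty := by
        rw [Set.nonempty_iff_ne_empty]
        intro h3
        rw [h3, Set.ncard_empty] at h1
        exact absurd h1 (by decide)
      obtain ⟨c, hc⟩ := h2
      obtain ⟨M, w, -, hM, hBM, hV, he⟩ := (key B c).1 hc
      obtain ⟨w', rfl⟩ := inv M w hM he
      have h3 : (a'⁻¹ * φ w' * a).1 = M := by
        have h4 : (a'⁻¹ * φ w' * a).1 = (a'⁻¹).1 * ((φ w').1 * a.1) := by
          rw [← mul_assoc]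
          rfl
        rw [h4, φ1, he, ← mul_assoc, Units.inv_mul, one_mul]
      refine ⟨a'⁻¹ * φ w' * a, ?_, ?_⟩
      · rw [hS]
        refine ⟨?_, w', ?_, rfl⟩
        · rw [h3]
          exact hM
        · rw [hWd]
          exact hV
      · rw [h3]
        exact hBM
    · rintro ⟨M, hM, hB⟩
      rw [hS] at hM
      obtain ⟨hMm, w0, hw0, e0⟩ := hM
      show Odd {c : Word | c.length = lenC F p k n ∧
        memW F V p k n x (encF F a.1) (encF F a'.1) (enc B.1) c = true}.ncard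
      have h1 := hL F p k n hp hp2 η W hW w0 hw0
      rw [← hφ] at h1
      have h2 : {c : Word | c.length = lenC F p k n ∧
          memW F V p k n x (encF F a.1) (encF F a'.1) (enc B.1) c = true} =
            (fun w : Gp p k n => encF F M.1 ++ encP p k n w.1) ''
              {w : Gp p k n | w ∈ W ∧ φ w = φ w0} := by
        ext c
        rw [Set.mem_ofPred_eq, key B c, Set.mem_image]
        have hMe : a'.1 * M.1 = (φ w0).1 * a.1 := by
          have h3 : a' * M = φ w0 * a := by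
            rw [e0]
            group
          exact congrArg Units.val h3
        constructor
        · rintro ⟨M', w, hc, hM', hBM, hV, he⟩
          have h3 : M' = M.1 := r3 M' M.1 hM' hMm (by rw [← hBM, ← hB])
          subst h3
          obtain ⟨w', rfl⟩ := inv M.1 w hMm he
          refine ⟨w', ⟨?_, ?_⟩, hc.symm⟩
          · rw [hWd]
            exact hV
          · have h4 : φ w' * a = φ w0 * a := by
              apply Units.ext
              show (φ w').1 * a.1 = (φ w0).1 * a.1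
              rw [φ1, he, hMe]
            exact mul_right_cancel h4
        · rintro ⟨w, ⟨hw, he⟩, hc⟩
          refine ⟨M.1, w.1, hc.symm, hMm, hB, ?_, ?_⟩
          · rw [hWd] at hw
            exact hw
          · rw [← φ1, he, hMe]
      rw [h2, Set.ncard_image_of_injective]
      · exact h1
      · intro w w' h
        have h3 : encP p k n w.1 = encP p k n w'.1 := List.append_cancel_left h
        exact Units.ext (p3 _ _ h3)
  rw [claim]
  obtain ⟨c1, c2⟩ := r4 S SM SH
  refine ⟨c1, c2.trans ?_⟩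
  rw [hS]
  constructor
  · rintro ⟨M, hM, w, hw, e⟩
    refine ⟨w, ?_, ?_⟩
    · rw [hWd] at hw
      exact hw
    · rw [← hφ, ← e]
      exact hM
  · rintro ⟨w, hw, hM⟩
    rw [← hφ] at hM
    exact ⟨a'⁻¹ * φ w * a, hM, w, by rw [hWd]; exact hw, rfl⟩

end Pool.Agent.COSB.H45
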