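import Pool.Agent.COSB.StmtsL

/-!
# Squad COSB (MP_0fc649_lc), row TBZ: digits of an integer modulo `2^w`
-/

set_option autoImplicit false

namespace Pool.Agent.COSB.H45

theorem tbz : TbzStmt := by
  intro w z b hb
  have hne : NeZero (2 ^ w) := ⟨pow_ne_zero _ (by norm_num)⟩
  cases z with
  | ofNat m =>
    have h1 : ((Int.ofNat m : ℤ) : ZMod (2 ^ w)).val = m % 2 ^ w := by
      rw [Int.ofNat_eq_natCast, Int.cast_natCast, ZMod.val_natCast]
    rw [h1, Nat.testBit_mod_two_pow, decide_eq_true hb, Bool.true_and]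
    rfl
  | negSucc m =>
    have h1 : (((Int.negSucc m : ℤ) : ZMod (2 ^ w)).val : ℤ) = Int.negSucc m % ((2 ^ w : ℕ) : ℤ) :=
      ZMod.val_intCast _
    have h2 : ((Int.negSucc m : ℤ) : ZMod (2 ^ w)).val = 2 ^ w - (m % 2 ^ w + 1) := by
      have h3 : m % 2 ^ w < 2 ^ w := Nat.mod_lt _ (by positivity)
      have h4 := Nat.div_add_mod m (2 ^ w)
      have h5 : Int.negSucc m % ((2 ^ w : ℕ) : ℤ) = ((2 ^ w - (m % 2 ^ w + 1) : ℕ) : ℤ) := by
        rw [Int.emod_eq_iff (by exact_mod_cast hne.out)]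
        refine ⟨by positivity, ?_, ?_⟩
        · rw [Int.natAbs_natCast]
          have h6 : 2 ^ w - (m % 2 ^ w + 1) < 2 ^ w := by omega
          exact_mod_cast h6
        · refine ⟨(m / 2 ^ w : ℕ) + 1, ?_⟩
          rw [Nat.cast_sub (by omega), Int.negSucc_eq]
          have h7 : (m : ℤ) = ((2 ^ w : ℕ) : ℤ) * ((m / 2 ^ w : ℕ) : ℤ) + ((m % 2 ^ w : ℕ) : ℤ) := by
            exact_mod_cast h4.symm
          push_cast at h7 ⊢
          linarith
      rw [h5] at h1
      exact_mod_cast h1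
    rw [h2, Nat.testBit_two_pow_sub_succ (Nat.mod_lt _ (by positivity)), decide_eq_true hb,
      Bool.true_and, Nat.testBit_mod_two_pow, decide_eq_true hb, Bool.true_and]
    rfl

end Pool.Agent.COSB.H45
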