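import Pool.Agent.COSB.StmtsA
import Pool.Agent.Helper13_COS.WRA

/-!
# Squad COSB (MP_0fc649_lc), row WOE: words of matrices over `Z / 2^k`
-/

set_option autoImplicit false

namespace Pool.Agent.COSB.H45

open Turing Computability Pool.Agent.UT.Num Pool.Agent.H2XG Pool.Agent.PAR Pool.Agent.COS
open Pool.Agent.COS.H13 (pos_lt div_eq mod_eq)

theorem len_enc2 {n k : ℕ} (A : Matrix (Fin n) (Fin n) (ZMod (2 ^ k))) :
    (enc2 k A).length = n * n * k := by
  unfold enc2
  rw [List.length_ofFn]

theorem get_enc2 {n k : ℕ} (A : Matrix (Fin n) (Fin n) (ZMod (2 ^ k))) (t : ℕ)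
    (h : t < n * n * k) (h' : t < (enc2 k A).length) :
    (enc2 k A)[t] = (A (Fin.divNat (Fin.divNat ⟨t, h⟩)) (Fin.modNat (Fin.divNat ⟨t, h⟩))).val.testBit
      (t % k) :=
  List.getElem_ofFn (f := fun t : Fin (n * n * k) =>
    (A t.divNat.divNat t.divNat.modNat).val.testBit t.modNat) (i := t) h'

theorem pos3 {n k s b : ℕ} (hs : s < n * n) (hb : b < k) : s * k + b < n * n * k := by
  calc s * k + b < s * k + k := by omega
    _ = (s + 1) * k := by ring
    _ ≤ n * n * k := Nat.mul_le_mul_right k hs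

theorem getD_enc2 {n k : ℕ} (A : Matrix (Fin n) (Fin n) (ZMod (2 ^ k))) (i j : Fin n) {b : ℕ}
    (hb : b < k) : (enc2 k A).getD ((i * n + j) * k + b) false = (A i j).val.testBit b := by
  have h0 := pos_lt i.2 j.2
  have h := pos3 h0 hb
  have h' : (i * n + j) * k + b < (enc2 k A).length := by rw [len_enc2]; exact h
  rw [List.getD_eq_getElem _ _ h', get_enc2 A _ h]
  have h1 : Fin.divNat (⟨(i * n + j) * k + b, h⟩ : Fin (n * n * k)) = ⟨i * n + j, h0⟩ :=
    Fin.ext (div_eq hb)
  have h2 : Fin.divNat (⟨i * n + j, h0⟩ : Fin (n * n)) = i := Fin.ext (div_eq j.2)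
  have h3 : Fin.modNat (⟨i * n + j, h0⟩ : Fin (n * n)) = j := Fin.ext (mod_eq j.2)
  rw [h1, h2, h3, mod_eq hb]

/-- the letters of a block -/
theorem getD_block (w : Word) (s k b : ℕ) : ((w.drop s).take k).getD b false =
    (decide (b < k) && w.getD (s + b) false) := by
  rw [List.getD_eq_getElem?_getD, List.getD_eq_getElem?_getD, List.getElem?_take,
    List.getElem?_drop]
  by_cases h : b < k
  · rw [if_pos h, decide_eq_true h, Bool.true_and]
  · rw [if_neg h, decide_eq_false h, Bool.false_and]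
    rfl

theorem gE_lt (n k : ℕ) (w : Word) (i j : ℕ) : gE n k w i j < 2 ^ k := by
  unfold gE
  refine (LATM.nval_lt _).trans_le (Nat.pow_le_pow_right (by norm_num) ?_)
  rw [List.length_take]
  exact Nat.min_le_left _ _

theorem testBit_gE (n k : ℕ) (w : Word) (i j b : ℕ) : (gE n k w i j).testBit b =
    (decide (b < k) && w.getD ((i * n + j) * k + b) false) := by
  unfold gE
  rw [LATM.testBit_nval, getD_block]

theorem woe : WoeStmt := by
  intro n k
  have hne : NeZero (2 ^ k) := ⟨pow_ne_zero _ (by norm_num)⟩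
  have key : ∀ (A : Matrix (Fin n) (Fin n) (ZMod (2 ^ k))) (i j : Fin n),
      gE n k (enc2 k A) i j = (A i j).val := by
    intro A i j
    apply Nat.eq_of_testBit_eq
    intro b
    rw [testBit_gE]
    by_cases hb : b < k
    · rw [decide_eq_true hb, Bool.true_and, getD_enc2 A i j hb]
    · rw [decide_eq_false hb, Bool.false_and]
      symm
      apply Nat.testBit_eq_false_of_lt
      exact (ZMod.val_lt (A i j)).trans_le (Nat.pow_le_pow_right (by norm_num) (by omega))
  refine ⟨len_enc2, ?_, ?_, ?_, ?_⟩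
  · intro A i j
    rw [key, ZMod.natCast_zmod_val]
  · intro A B h
    ext i j
    have h1 := key A i j
    rw [h, key B i j] at h1
    exact (ZMod.val_injective _ h1).symm
  · intro w hw
    refine ⟨Matrix.of fun i j => (gE n k w i j : ZMod (2 ^ k)), ?_⟩
    apply List.ext_getElem
    · rw [len_enc2, hw]
    intro t h1 h2
    have ht : t < n * n * k := by rwa [len_enc2] at h1
    have hk : 0 < k := by
      rcases Nat.eq_zero_or_pos k with h | h
      · subst h
        simp at ht
      · exact h
    have hts : t / k < n * n := (Nat.div_lt_iff_lt_mul hk).2 ht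
    have hn : 0 < n := by
      rcases Nat.eq_zero_or_pos n with h | h
      · subst h
        simp at hts
      · exact h
    rw [get_enc2 _ _ ht, Matrix.of_apply, ZMod.val_natCast, Nat.mod_eq_of_lt (gE_lt _ _ _ _ _),
      testBit_gE, decide_eq_true (Nat.mod_lt _ hk), Bool.true_and]
    have e : ((Fin.divNat (Fin.divNat (⟨t, ht⟩ : Fin (n * n * k))) : Fin n) : ℕ) * n +
        ((Fin.modNat (Fin.divNat (⟨t, ht⟩ : Fin (n * n * k))) : Fin n) : ℕ) = t / k :=
      Nat.div_add_mod' (t / k) n
    rw [e, Nat.div_add_mod', List.getD_eq_getElem _ _ h2]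
  · intro A e he
    apply List.ext_getElem
    · rw [len_enc2]
      unfold wE
      rw [List.length_map, List.length_range]
    intro t h1 h2
    have ht : t < n * n * k := by rwa [len_enc2] at h2
    have hk : 0 < k := by
      rcases Nat.eq_zero_or_pos k with h | h
      · subst h
        simp at ht
      · exact h
    rw [get_enc2 _ _ ht]
    unfold wE
    rw [List.getElem_map, List.getElem_range]
    obtain ⟨i, hi⟩ : ∃ i : Fin n, i = Fin.divNat (Fin.divNat ⟨t, ht⟩) := ⟨_, rfl⟩
    obtain ⟨j, hj⟩ : ∃ j : Fin n, j = Fin.modNat (Fin.divNat ⟨t, ht⟩) := ⟨_, rfl⟩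
    have hi' : t / k / n = i := by rw [hi]; rfl
    have hj' : t / k % n = j := by rw [hj]; rfl
    rw [← hi, ← hj, hi', hj', ← he i j, ZMod.val_natCast, Nat.testBit_mod_two_pow,
      decide_eq_true (Nat.mod_lt _ hk), Bool.true_and]

end Pool.Agent.COSB.H45
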